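import Mathlib

set_option autoImplicit false

namespace Pool.Agent.Results.MP_aca66f_gt.Michael

open Set Filter Topology

/-- Functionally closed sets. -/
def FClosed {X : Type*} [TopologicalSpace X] (A : Set X) : Prop :=
  ∃ f : X → unitInterval, Continuous f ∧ A = f ⁻¹' {0}

/-- Functionally open sets. -/
def FOpen {X : Type*} [TopologicalSpace X] (A : Set X) : Prop :=
  ∃ f : X → unitInterval, Continuous f ∧ A = f ⁻¹' Ioc 0 1

/-- Functionally `F_σ` sets. -/
def FSigma {X : Type*} [TopologicalSpace X] (A : Set X) : Prop :=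
  ∃ Z : ℕ → Set X, (∀ n, FClosed (Z n)) ∧ A = ⋃ n, Z n

/-- Functionally `G_δ` sets. -/
def FDelta {X : Type*} [TopologicalSpace X] (A : Set X) : Prop :=
  ∃ Z : ℕ → Set X, (∀ n, FOpen (Z n)) ∧ A = ⋂ n, Z n

/-- `1`-embedded subsets. -/
def OneEmb {X : Type*} [TopologicalSpace X] (E : Set X) : Prop :=
  (∀ A : Set E, FSigma A → ∃ B : Set X, FSigma B ∧ A = Subtype.val ⁻¹' B) ∧
  (∀ A : Set E, FDelta A → ∃ B : Set X, FDelta B ∧ A = Subtype.val ⁻¹' B)

structure M where
  v : ℝ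

instance : TopologicalSpace M where
  IsOpen U := ∀ q : ℚ, ⟨q⟩ ∈ U → ∀ᶠ x in 𝓝 (q : ℝ), (⟨x⟩ : M) ∈ U
  isOpen_univ := by simp
  isOpen_inter := fun _ _ hs ht q h => (hs q h.1).and (ht q h.2)
  isOpen_sUnion := fun _ hS q ⟨W, hW, h⟩ => (hS W hW q h).mono fun _ hx => ⟨W, hW, hx⟩

lemma cont_v : Continuous M.v := ⟨fun _ hU _ h => hU.mem_nhds h⟩

instance : T2Space M := T2Space.of_injective_continuous (f := M.v) (fun _ _ h => congrArg M.mk h) cont_v

lemma cover {A B : Set M} (hA : IsClosed A) (hB : IsClosed B) (h : Disjoint A B) :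
    HasSeparatingCover A B := by
  have : ∀ q : ℚ, ∃ C : Set ℝ, IsClosed C ∧ ((⟨q⟩ : M) ∈ A → C ∈ 𝓝 (q : ℝ)) ∧ ∀ x ∈ C, (⟨x⟩ : M) ∉ B := by
    intro q
    by_cases hq : (⟨q⟩ : M) ∈ A
    · obtain ⟨C, a, b, c⟩ := exists_mem_nhds_isClosed_subset
        (hB.isOpen_compl q (disjoint_left.1 h hq))
      exact ⟨C, b, fun _ => a, c⟩
    · exact ⟨∅, isClosed_empty, fun h => absurd h hq, by simp⟩
  choose C h1 h2 h3 using this
  obtain ⟨e, he⟩ := exists_surjective_nat ℚ
  refine ⟨fun n => M.v ⁻¹' interior (C (e n)) ∪ {x | x ∈ A ∧ Irrational x.v}, fun x hx => ?_,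
    fun n => ⟨(isOpen_interior.preimage cont_v).union fun q hq => absurd hq.2 q.not_irrational, ?_⟩⟩
  · by_cases hi : Irrational x.v
    · exact mem_iUnion.2 ⟨0, Or.inr ⟨hx, hi⟩⟩
    · obtain ⟨q, hq⟩ := not_not.1 hi
      obtain ⟨n, rfl⟩ := he q
      obtain ⟨x⟩ := x
      subst hq
      exact mem_iUnion.2 ⟨n, Or.inl (mem_interior_iff_mem_nhds.2 (h2 _ hx))⟩
  · refine Disjoint.mono_left (closure_minimal (union_subset_union (preimage_mono interior_subset)
      fun x hx => hx.1) (((h1 _).preimage cont_v).union hA)) ?_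
    exact disjoint_union_left.2 ⟨disjoint_left.2 fun x hx => h3 _ _ hx, h⟩

instance : NormalSpace M := ⟨fun _ _ hA hB h =>
  hasSeparatingCovers_iff_separatedNhds.1 ⟨cover hA hB h, cover hB hA h.symm⟩⟩

lemma good (f : M → unitInterval) (hf : Continuous f) :
    ∀ᶠ x in residual ℝ, ContinuousAt (fun x : ℝ => f ⟨x⟩) x := by
  refine residual_of_dense_Gδ (IsGδ.setOf_continuousAt _) (Rat.denseRange_cast.mono ?_)
  rintro _ ⟨q, rfl⟩
  exact fun U hU => by
    obtain ⟨V, a, b, c⟩ := mem_nhds_iff.1 hU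
    exact mem_of_superset ((b.preimage hf) q c) fun x hx => a hx

lemma color : ∃ c : ℝ → Prop, ∀ ε > 0, ∃ t : ℝ, 0 < t ∧ t < ε ∧ ∀ x, c (x + t) ↔ ¬ c x := by
  have : (√2 : ℝ) ∉ Submodule.span ℚ {(1 : ℝ)} := by
    rw [Submodule.mem_span_singleton]
    rintro ⟨q, hq⟩
    exact irrational_sqrt_two ⟨q, by simpa using hq⟩
  obtain ⟨f, h1, h2⟩ := Submodule.exists_le_ker_of_notMem this
  refine ⟨fun x => Even ⌊f x / f √2⌋, fun ε hε => ?_⟩
  obtain ⟨q, a, b⟩ := exists_rat_btwn (show √2 - ε < √2 by linarith)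
  refine ⟨√2 - q, by linarith, by linarith, fun x => ?_⟩
  have : f q = 0 := h2 (Submodule.mem_span_singleton.2 ⟨q, by simp⟩)
  beta_reduce
  rw [map_add, map_sub, this, sub_zero, add_div, div_self h1, Int.floor_add_one, Int.even_add_one]

lemma shift {G : Set ℝ} (hG : G ∈ residual ℝ) (t : ℝ) : ∀ᶠ x in residual ℝ, x + t ∈ G :=
  tendsto_residual_of_isOpenMap (continuous_add_const t) (isOpenMap_add_right t) hG

theorem result : ∃ (X : Type) (_ : TopologicalSpace X) (E : Set X), T1Space X ∧ NormalSpace X ∧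
    FDelta E ∧ ¬ OneEmb E := by
  classical
  refine ⟨M, inferInstance, {x | Irrational x.v}, inferInstance, inferInstance, ?_, fun h => ?_⟩
  · obtain ⟨e, he⟩ := exists_surjective_nat ℚ
    refine ⟨fun n => {x | x.v ≠ e n}, fun n => ⟨fun x => ⟨min (dist x.v (e n)) 1,
      le_min dist_nonneg zero_le_one, min_le_right _ _⟩,
      Continuous.subtype_mk ((cont_v.dist continuous_const).min continuous_const) _, ?_⟩, ?_⟩
    · ext x
      simp [unitInterval.le_one', ← Subtype.coe_lt_coe]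
    · ext x
      simp only [mem_ofPred_eq, mem_iInter]
      exact ⟨fun h n e => h ⟨_, e.symm⟩, fun h ⟨q, hq⟩ => by
        obtain ⟨n, rfl⟩ := he q; exact h n hq.symm⟩
  haveI : DiscreteTopology {x : M | Irrational x.v} := by
    rw [discreteTopology_iff_isOpen_singleton]
    intro y
    refine isOpen_induced_iff.2 ⟨{y.1}, fun q hq => ?_, by ext z; simp [Subtype.ext_iff]⟩
    have := y.2
    rw [← mem_singleton_iff.1 hq] at this
    exact absurd this q.not_irrational
  have key : ∀ c : ℝ → Prop, ∃ f : ℕ → M → unitInterval, (∀ n, Continuous (f n)) ∧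
      ∀ x, Irrational x → (c x ↔ ∃ n, f n ⟨x⟩ = 0) := by
    intro c
    obtain ⟨B, ⟨Z, hZ, rfl⟩, e⟩ := h.1 {y | c y.1.v} ⟨fun _ => _, fun _ => ⟨fun y => if c y.1.v then 0 else 1,
      continuous_of_discreteTopology, by ext y; simp⟩, (iUnion_const _).symm⟩
    choose f h1 h2 using hZ
    refine ⟨f, h1, fun x hx => ?_⟩
    have := Set.ext_iff.1 e ⟨⟨x⟩, hx⟩
    simpa [h2] using this
  have main : ∀ c : ℝ → Prop, (∀ ε > 0, ∃ t : ℝ, 0 < t ∧ t < ε ∧ ∀ x, c x → ¬ c (x + t)) →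
      ∀ᶠ x in residual ℝ, ¬ c x := by
    intro c hc
    obtain ⟨f, h1, h2⟩ := key c
    have hG : ∀ᶠ x in residual ℝ, Irrational x ∧ ∀ n, ContinuousAt (fun x : ℝ => f n ⟨x⟩) x :=
      eventually_residual_irrational.and (eventually_countable_forall.2 fun n => good _ (h1 n))
    have : ∀ n, ∀ᶠ x in residual ℝ, x ∉ closure {x : ℝ | f n ⟨x⟩ = 0} := by
      intro n
      refine residual_of_dense_open isClosed_closure.isOpen_compl ?_
      refine interior_eq_empty_iff_dense_compl.1 ?_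
      by_contra hh
      obtain ⟨a, ha⟩ := nonempty_iff_ne_empty.2 hh
      obtain ⟨ε, hε, hb⟩ := Metric.mem_nhds_iff.1 (mem_interior_iff_mem_nhds.1 ha)
      have z : ∀ x ∈ Metric.ball a ε, (Irrational x ∧ ∀ n, ContinuousAt (fun x : ℝ => f n ⟨x⟩) x) → c x := by
        intro x hx hx'
        refine (h2 x hx'.1).2 ⟨n, ?_⟩
        have := (hx'.2 n).continuousWithinAt.mem_closure_image (hb hx)
        exact closure_minimal (t := {0}) (by rintro _ ⟨y, hy, rfl⟩; exact hy) isClosed_singleton this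
      obtain ⟨t, t1, t2, ht⟩ := hc (ε / 2) (by positivity)
      obtain ⟨x, hx, a1, a2⟩ := (dense_of_mem_residual (hG.and (shift hG t))).inter_open_nonempty _
        Metric.isOpen_ball ⟨a, Metric.mem_ball_self (half_pos hε)⟩
      refine ht x (z x (Metric.ball_subset_ball (by linarith) hx) a1) (z _ ?_ a2)
      rw [Metric.mem_ball, Real.dist_eq, abs_lt] at *
      constructor <;> linarith [hx.1, hx.2]
    filter_upwards [hG, eventually_countable_forall.2 this] with x a b hx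
    obtain ⟨n, hn⟩ := (h2 x a.1).1 hx
    exact b n (subset_closure hn)
  obtain ⟨c, hc⟩ := color
  have a := main c fun ε hε => (hc ε hε).imp fun t h => ⟨h.1, h.2.1, fun x a b => (h.2.2 x).1 b a⟩
  have b := main (fun x => ¬ c x) fun ε hε => (hc ε hε).imp fun t h =>
    ⟨h.1, h.2.1, fun x a b => b ((h.2.2 x).2 a)⟩
  obtain ⟨x, h1, h2⟩ := (dense_of_mem_residual (a.and b)).nonempty
  exact h2 h1

end Pool.Agent.Results.MP_aca66f_gt.Michael
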